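import Pool.Agent.N483.KM.StmO

/-!
# Project KM, part OAP: approximation by finite functions
-/

set_option autoImplicit false

namespace Pool.Agent.N459.KM

open MeasureTheory Set Filter Topology
open scoped ENNReal

open Pool.Agent.R754.KG (E)
open Pool.Agent.N483.KM

/-! ### Inf-convolution -/

/-- the inf-convolution of `V` with `(m + 1) |t|` -/
noncomputable def G (V : ℝ → ℝ≥0∞) (m : ℕ) (t : ℝ) : ℝ≥0∞ :=
  ⨅ y : ℝ, (V y + ENNReal.ofReal (((m : ℝ) + 1) * |t - y|))

theorem G_le (V : ℝ → ℝ≥0∞) (m : ℕ) (t y : ℝ) :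
    G V m t ≤ V y + ENNReal.ofReal (((m : ℝ) + 1) * |t - y|) := iInf_le _ y

theorem G_le_self (V : ℝ → ℝ≥0∞) (m : ℕ) (t : ℝ) : G V m t ≤ V t := by
  have h := G_le V m t t
  simpa using h

theorem G_ne_top {V : ℝ → ℝ≥0∞} {y : ℝ} (hy : V y ≠ ⊤) (m : ℕ) (t : ℝ) : G V m t ≠ ⊤ :=
  ne_top_of_le_ne_top (ENNReal.add_ne_top.2 ⟨hy, ENNReal.ofReal_ne_top⟩) (G_le V m t y)

theorem G_mono (V : ℝ → ℝ≥0∞) (t : ℝ) : Monotone fun m => G V m t := by
  intro m m' h
  refine iInf_mono fun y => ?_
  refine add_le_add le_rfl (ENNReal.ofReal_le_ofReal ?_)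
  have h1 : (m : ℝ) ≤ m' := by exact_mod_cast h
  exact mul_le_mul_of_nonneg_right (by linarith) (abs_nonneg _)

theorem G_conv {V : ℝ → ℝ≥0∞} (hV : XC V) (m : ℕ) (x y t : ℝ) (h0 : 0 < t) (h1 : t < 1) :
    G V m ((1 - t) * x + t * y) ≤
      ENNReal.ofReal (1 - t) * G V m x + ENNReal.ofReal t * G V m y := by
  have ht0 : ENNReal.ofReal t ≠ 0 := by simpa using h0
  have ht1 : ENNReal.ofReal (1 - t) ≠ 0 := by simpa using h1
  unfold G
  rw [ENNReal.mul_iInf_of_ne ht1 ENNReal.ofReal_ne_top,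
    ENNReal.mul_iInf_of_ne ht0 ENNReal.ofReal_ne_top, ENNReal.iInf_add]
  refine le_iInf fun a => ?_
  rw [ENNReal.add_iInf]
  refine le_iInf fun b => ?_
  refine (iInf_le _ ((1 - t) * a + t * b)).trans ?_
  have k0 : (0 : ℝ) ≤ (m : ℝ) + 1 := by positivity
  have e1 : ENNReal.ofReal (((m : ℝ) + 1) * |(1 - t) * x + t * y - ((1 - t) * a + t * b)|) ≤
      ENNReal.ofReal (1 - t) * ENNReal.ofReal (((m : ℝ) + 1) * |x - a|) +
        ENNReal.ofReal t * ENNReal.ofReal (((m : ℝ) + 1) * |y - b|) := by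
    rw [← ENNReal.ofReal_mul (by linarith), ← ENNReal.ofReal_mul h0.le,
      ← ENNReal.ofReal_add (mul_nonneg (by linarith) (by positivity)) (by positivity)]
    apply ENNReal.ofReal_le_ofReal
    have e2 : (1 - t) * x + t * y - ((1 - t) * a + t * b) = (1 - t) * (x - a) + t * (y - b) := by
      ring
    have e3 : |(1 - t) * (x - a) + t * (y - b)| ≤ (1 - t) * |x - a| + t * |y - b| := by
      refine (abs_add_le _ _).trans (le_of_eq ?_)
      rw [abs_mul, abs_mul, abs_of_pos h0, abs_of_pos (show 0 < 1 - t by linarith)]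
    rw [e2]
    have e4 := mul_le_mul_of_nonneg_left e3 k0
    linarith
  calc V ((1 - t) * a + t * b) +
        ENNReal.ofReal (((m : ℝ) + 1) * |(1 - t) * x + t * y - ((1 - t) * a + t * b)|)
      ≤ (ENNReal.ofReal (1 - t) * V a + ENNReal.ofReal t * V b) +
        (ENNReal.ofReal (1 - t) * ENNReal.ofReal (((m : ℝ) + 1) * |x - a|) +
          ENNReal.ofReal t * ENNReal.ofReal (((m : ℝ) + 1) * |y - b|)) :=
        add_le_add (hV.conv a b t h0 h1) e1
    _ = ENNReal.ofReal (1 - t) * (V a + ENNReal.ofReal (((m : ℝ) + 1) * |x - a|)) +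
        ENNReal.ofReal t * (V b + ENNReal.ofReal (((m : ℝ) + 1) * |y - b|)) := by ring

theorem G_convexOn {V : ℝ → ℝ≥0∞} (hV : XC V) {y : ℝ} (hy : V y ≠ ⊤) (m : ℕ) :
    ConvexOn ℝ univ fun t => (G V m t).toReal := by
  refine ⟨convex_univ, fun x _ z _ a b ha hb hab => ?_⟩
  rcases ha.eq_or_lt with rfl | ha'
  · have : b = 1 := by linarith
    subst this
    simp
  rcases hb.eq_or_lt with rfl | hb'
  · have : a = 1 := by linarith
    subst this
    simp
  have h := G_conv hV m x z b hb' (by linarith)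
  have ha1 : 1 - b = a := by linarith
  rw [ha1] at h
  have h2 := ENNReal.toReal_mono (ENNReal.add_ne_top.2
    ⟨ENNReal.mul_ne_top ENNReal.ofReal_ne_top (G_ne_top hy m x),
      ENNReal.mul_ne_top ENNReal.ofReal_ne_top (G_ne_top hy m z)⟩) h
  rw [ENNReal.toReal_add (ENNReal.mul_ne_top ENNReal.ofReal_ne_top (G_ne_top hy m x))
    (ENNReal.mul_ne_top ENNReal.ofReal_ne_top (G_ne_top hy m z)), ENNReal.toReal_mul,
    ENNReal.toReal_mul, ENNReal.toReal_ofReal ha, ENNReal.toReal_ofReal hb] at h2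
  exact h2

theorem G_tendsto {V : ℝ → ℝ≥0∞} (hV : XC V) (t : ℝ) :
    Tendsto (fun m => G V m t) atTop (𝓝 (V t)) := by
  rw [tendsto_order]
  constructor
  · intro c hc
    obtain ⟨c', hc1, hc2⟩ := exists_between hc
    have hc' : c' ≠ ⊤ := ne_top_of_lt hc2
    have h1 := hV.lsc t c' hc2
    rw [Metric.eventually_nhds_iff] at h1
    obtain ⟨δ, hδ, h1⟩ := h1
    obtain ⟨M, hM⟩ := exists_nat_gt (c'.toReal / δ)
    filter_upwards [eventually_ge_atTop M] with m hm
    refine hc1.trans_le (le_iInf fun y => ?_)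
    by_cases hy : dist y t < δ
    · exact (h1 hy).le.trans le_self_add
    · push Not at hy
      rw [Real.dist_eq, abs_sub_comm] at hy
      refine le_trans ?_ le_add_self
      rw [← ENNReal.ofReal_toReal hc']
      apply ENNReal.ofReal_le_ofReal
      have h2 : (M : ℝ) ≤ m := by exact_mod_cast hm
      rw [div_lt_iff₀ hδ] at hM
      have h3 : (M : ℝ) * δ ≤ ((m : ℝ) + 1) * |t - y| :=
        mul_le_mul (by linarith) hy hδ.le (by positivity)
      linarith
  · intro c hc
    filter_upwards with m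
    exact (G_le_self V m t).trans_lt hc

/-! ### Nested convex sets -/

theorem bdd_of_nested {n : ℕ} (C : ℕ → Set (E n)) (hC : ∀ m, IsClosed (C m))
    (hconv : ∀ m, Convex ℝ (C m)) (hsub : ∀ m, C (m + 1) ⊆ C m) (x0 : E n) (hx : ∀ m, x0 ∈ C m)
    (hb : Bornology.IsBounded (⋂ m, C m)) : ∃ m, Bornology.IsBounded (C m) := by
  obtain ⟨R, hR0, hR⟩ := hb.subset_ball_lt 0 x0
  by_contra hcon
  push Not at hcon
  have hne : ∀ m, (C m ∩ Metric.sphere x0 R).Nonempty := by
    intro m
    have h1 : ¬ C m ⊆ Metric.ball x0 R := fun h => hcon m (Metric.isBounded_ball.subset h)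
    obtain ⟨y, hy, hy2⟩ := not_subset.1 h1
    rw [Metric.mem_ball, not_lt] at hy2
    have hd : 0 < dist y x0 := lt_of_lt_of_le hR0 hy2
    refine ⟨x0 + (R / dist y x0) • (y - x0), ?_, ?_⟩
    · have h2 := hconv m (hx m) hy (a := 1 - R / dist y x0) (b := R / dist y x0)
        (by rw [sub_nonneg, div_le_one hd]; exact hy2) (by positivity) (by ring)
      have e : (1 - R / dist y x0) • x0 + (R / dist y x0) • y =
          x0 + (R / dist y x0) • (y - x0) := by
        rw [sub_smul, one_smul, smul_sub]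
        abel
      rwa [e] at h2
    · rw [mem_sphere_iff_norm, add_sub_cancel_left, norm_smul, Real.norm_eq_abs,
        abs_of_pos (by positivity), ← dist_eq_norm]
      field_simp
  have hcomp : IsCompact (C 0 ∩ Metric.sphere x0 R) := (isCompact_sphere x0 R).inter_left (hC 0)
  obtain ⟨y, hy⟩ := IsCompact.nonempty_iInter_of_sequence_nonempty_isCompact_isClosed
    (fun m => C m ∩ Metric.sphere x0 R) (fun m => inter_subset_inter_left _ (hsub m)) hne hcomp
    (fun m => (hC m).inter Metric.isClosed_sphere)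
  rw [mem_iInter] at hy
  have h1 : y ∈ ⋂ m, C m := mem_iInter.2 fun m => (hy m).1
  have h2 := hR h1
  have h3 := (hy 0).2
  rw [Metric.mem_ball] at h2
  rw [Metric.mem_sphere] at h3
  linarith

theorem SL_closed {r n : ℕ} {V : Fin r → Fin n → ℝ → ℝ} (hV : ∀ j i, ConvexOn ℝ univ (V j i))
    (s : Fin r → ℝ) : IsClosed (SL V s) := by
  have hc : ∀ j i, Continuous (V j i) := by
    intro j i
    rw [← continuousOn_univ]
    exact (hV j i).continuousOn isOpen_univ
  have : SL V s = ⋂ j, {x : E n | ∑ i, V j i (x i) ≤ s j} := by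
    ext x
    simp [SL]
  rw [this]
  refine isClosed_iInter fun j => isClosed_le ?_ continuous_const
  refine continuous_finsetSum _ fun i _ => (hc j i).comp ?_
  fun_prop

theorem SL_convex {r n : ℕ} {V : Fin r → Fin n → ℝ → ℝ} (hV : ∀ j i, ConvexOn ℝ univ (V j i))
    (s : Fin r → ℝ) : Convex ℝ (SL V s) := by
  intro x hx y hy a b ha hb hab j
  have h1 : ∀ i, V j i ((a • x + b • y) i) ≤ a * V j i (x i) + b * V j i (y i) := by
    intro i
    have := (hV j i).2 (mem_univ (x i)) (mem_univ (y i)) ha hb hab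
    simpa using this
  calc ∑ i, V j i ((a • x + b • y) i) ≤ ∑ i, (a * V j i (x i) + b * V j i (y i)) :=
        Finset.sum_le_sum fun i _ => h1 i
    _ = a * ∑ i, V j i (x i) + b * ∑ i, V j i (y i) := by
        rw [Finset.sum_add_distrib, Finset.mul_sum, Finset.mul_sum]
    _ ≤ a * s j + b * s j := add_le_add (mul_le_mul_of_nonneg_left (hx j) ha)
        (mul_le_mul_of_nonneg_left (hy j) hb)
    _ = s j := by rw [← add_mul, hab, one_mul]

/-! ### The theorem -/

theorem t_OAP : S_OAP := by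
  classical
  intro r n V e hV hb hne
  obtain ⟨x0, hx0⟩ := hne
  have hx0' : ∀ j, ∑ i, V j i (x0 i) ≤ e j := hx0
  obtain ⟨U, hU⟩ : ∃ U : ℕ → Fin r → Fin n → ℝ → ℝ, ∀ m j i t, U m j i t =
      if e j = ⊤ then 0 else (G (V j i) m t).toReal := ⟨_, fun _ _ _ _ => rfl⟩
  obtain ⟨f, hf⟩ : ∃ f : ℕ → Fin r → ℝ, ∀ m j, f m j =
      if e j = ⊤ then 1 else (e j).toReal + 1 / ((m : ℝ) + 1) := ⟨_, fun _ _ => rfl⟩
  have hfin : ∀ j, e j ≠ ⊤ → ∀ i, V j i (x0 i) ≠ ⊤ := by
    intro j hj i
    refine ne_top_of_le_ne_top hj ((?_ : V j i (x0 i) ≤ _).trans (hx0' j))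
    exact Finset.single_le_sum (f := fun i => V j i (x0 i)) (fun _ _ => zero_le) (Finset.mem_univ i)
  have hconv : ∀ m j i, ConvexOn ℝ univ (U m j i) := by
    intro m j i
    by_cases hj : e j = ⊤
    · have : U m j i = fun _ => 0 := by
        funext t
        rw [hU, if_pos hj]
      rw [this]
      exact convexOn_const 0 convex_univ
    · have : U m j i = fun t => (G (V j i) m t).toReal := by
        funext t
        rw [hU, if_neg hj]
      rw [this]
      exact G_convexOn (hV j i) (hfin j hj i) m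
  have hnn : ∀ m j i t, 0 ≤ U m j i t := by
    intro m j i t
    rw [hU]
    split_ifs
    · exact le_rfl
    · exact ENNReal.toReal_nonneg
  -- sums
  have hsum : ∀ m j (x : E n), e j ≠ ⊤ → ∑ i, U m j i (x i) = (∑ i, G (V j i) m (x i)).toReal := by
    intro m j x hj
    rw [ENNReal.toReal_sum fun i _ => G_ne_top (hfin j hj i) m _]
    refine Finset.sum_congr rfl fun i _ => ?_
    rw [hU, if_neg hj]
  have hsumtop : ∀ m j (x : E n), e j ≠ ⊤ → ∑ i, G (V j i) m (x i) ≠ ⊤ := by
    intro m j x hj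
    rw [ENNReal.sum_ne_top]
    exact fun i _ => G_ne_top (hfin j hj i) m _
  have hslater : ∀ m j, ∑ i, U m j i (x0 i) < f m j := by
    intro m j
    by_cases hj : e j = ⊤
    · rw [hf, if_pos hj]
      simp only [hU, if_pos hj, Finset.sum_const_zero]
      exact one_pos
    · rw [hf, if_neg hj, hsum m j x0 hj]
      have h1 : ∑ i, G (V j i) m (x0 i) ≤ e j :=
        (Finset.sum_le_sum fun i _ => G_le_self _ _ _).trans (hx0' j)
      have h2 := ENNReal.toReal_mono hj h1
      have h3 : 0 < 1 / ((m : ℝ) + 1) := by positivity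
      linarith
  have hsub : ∀ m, SL (U (m + 1)) (f (m + 1)) ⊆ SL (U m) (f m) := by
    intro m x hx j
    have h1 := hx j
    by_cases hj : e j = ⊤
    · rw [hf, if_pos hj]
      simp only [hU, if_pos hj, Finset.sum_const_zero]
      exact zero_le_one
    · rw [hsum (m + 1) j x hj, hf, if_neg hj] at h1
      rw [hsum m j x hj, hf, if_neg hj]
      have h2 : ∑ i, G (V j i) m (x i) ≤ ∑ i, G (V j i) (m + 1) (x i) :=
        Finset.sum_le_sum fun i _ => G_mono _ _ (Nat.le_succ m)
      have h3 := ENNReal.toReal_mono (hsumtop (m + 1) j x hj) h2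
      have h4 : 1 / (((m + 1 : ℕ) : ℝ) + 1) ≤ 1 / ((m : ℝ) + 1) := by
        apply one_div_le_one_div_of_le (by positivity)
        push_cast
        linarith
      linarith
  have hinter : ⋂ m, SL (U m) (f m) = {x : E n | ∀ j, ∑ i, V j i (x i) ≤ e j} := by
    ext x
    rw [mem_iInter]
    constructor
    · intro h j
      by_cases hj : e j = ⊤
      · rw [hj]
        exact le_top
      · have h1 : ∀ m, ∑ i, G (V j i) m (x i) ≤
            e j + ENNReal.ofReal (1 / ((m : ℝ) + 1)) := by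
          intro m
          have h2 := h m j
          rw [hsum m j x hj, hf, if_neg hj] at h2
          have h3 := ENNReal.ofReal_le_ofReal h2
          rw [ENNReal.ofReal_toReal (hsumtop m j x hj),
            ENNReal.ofReal_add ENNReal.toReal_nonneg (by positivity),
            ENNReal.ofReal_toReal hj] at h3
          exact h3
        have h2 : Tendsto (fun m => ∑ i, G (V j i) m (x i)) atTop
            (𝓝 (∑ i, V j i (x i))) :=
          tendsto_finsetSum _ fun i _ => G_tendsto (hV j i) (x i)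
        have h3 : Tendsto (fun m : ℕ => e j + ENNReal.ofReal (1 / ((m : ℝ) + 1))) atTop
            (𝓝 (e j + ENNReal.ofReal 0)) :=
          tendsto_const_nhds.add (ENNReal.tendsto_ofReal tendsto_one_div_add_atTop_nhds_zero_nat)
        rw [ENNReal.ofReal_zero, add_zero] at h3
        exact le_of_tendsto_of_tendsto' h2 h3 h1
    · intro h m j
      by_cases hj : e j = ⊤
      · rw [hf, if_pos hj]
        simp only [hU, if_pos hj, Finset.sum_const_zero]
        exact zero_le_one
      · rw [hf, if_neg hj, hsum m j x hj]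
        have h1 : ∑ i, G (V j i) m (x i) ≤ e j :=
          (Finset.sum_le_sum fun i _ => G_le_self _ _ _).trans (h j)
        have h2 := ENNReal.toReal_mono hj h1
        have h3 : 0 < 1 / ((m : ℝ) + 1) := by positivity
        linarith
  obtain ⟨m0, hm0⟩ := bdd_of_nested (fun m => SL (U m) (f m)) (fun m => SL_closed (hconv m) _)
    (fun m => SL_convex (hconv m) _) hsub x0 (fun m j => (hslater m j).le) (by rw [hinter]; exact hb)
  have hanti : ∀ m k, SL (U (m + k)) (f (m + k)) ⊆ SL (U m) (f m) := by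
    intro m k
    induction k with
    | zero => exact subset_rfl
    | succ k ih => exact (hsub (m + k)).trans ih
  refine ⟨fun m => U (m0 + m), fun m => f (m0 + m), fun m j i => hconv _ j i,
    fun m j i t => hnn _ j i t, fun m => hm0.subset (hanti m0 m), fun m => ⟨x0, hslater _⟩,
    fun m => hsub (m0 + m), ?_⟩
  rw [← hinter]
  apply subset_antisymm
  · intro x hx
    rw [mem_iInter] at hx ⊢
    intro m
    have h1 : x ∈ SL (U (m0 + m)) (f (m0 + m)) := hx m
    rw [add_comm] at h1
    exact hanti m m0 h1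
  · intro x hx
    rw [mem_iInter] at hx ⊢
    intro m
    exact hx (m0 + m)

end Pool.Agent.N459.KM
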